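import Mathlib
import Pool.Agent.H4R3.EPc

/-!
# Curves of geometric genus one with unbounded canonical degree on a blow-up of `E × ℙ¹`

Let `E = ℂ / Λ` be ANY complex elliptic curve (`Λ` the lattice of a period pair `L`), and let `X` be
the blow-up of the smooth projective surface `E × ℙ¹` at the three points `(0, 0)`, `(0, 1)`,
`(0, ∞)`.  We show that `K_X · C` is unbounded above on the curves `C ⊂ X` of geometric genus
exactly one.  As `A (g - 1) + B = B` for `g = 1`, no inequality `K_X · C ≤ A (g(C) - 1) + B` can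
hold for all the curves of `X`.

`Torus L = ℂ ⧸ Λ` and `rep : Torus L → ℂ` (a choice of a representative of a point of `E`) are
defined in `Pool.Agent.H4R3.EPa`.
-/

open scoped OnePoint
open H4EP

namespace Pool.Agent.Results.MP_308c18_ag.EllipticProduct

/-- The function `f`, meromorphic on `ℂ`, takes the value `v ∈ ℙ¹ = ℂ ∪ {∞}` at the point `z`:
for `v = ∞` it has a pole at `z`, and for `v = c ∈ ℂ` the function `f - c` has a zero at `z`
(in the sense of meromorphic functions, that is, after removal of removable singularities). -/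
def TakesValue (f : ℂ → ℂ) (z : ℂ) : OnePoint ℂ → Prop
  | ∞ => meromorphicOrderAt f z < 0
  | (c : ℂ) => 0 < meromorphicOrderAt (fun w => f w - c) z

/-- A curve of geometric genus one on `E × ℙ¹`, `E = ℂ / Λ`, given through its normalisation
`φ : E → E × ℙ¹`, `t ↦ (m t, f t)`, where `m ≥ 1` and `f` is a meromorphic function on `E`, that is
a meromorphic function on `ℂ` which is periodic with respect to `Λ`.  The last field says that `φ`
is injective outside a finite set `T ⊂ E`, that is, birational onto its image `C = φ(E)`; so `C` is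
a reduced irreducible curve, of which `φ : E → C` is the normalisation, and `g(C) = 1`. -/
structure GenusOneCurve (L : PeriodPair) where
  m : ℕ
  m_pos : 0 < m
  f : ℂ → ℂ
  meromorphic : Meromorphic f
  periodic : ∀ z : ℂ, ∀ l ∈ L.lattice, f (z + l) = f z
  birational : ∃ T : Set (Torus L), T.Finite ∧ ∀ s t : Torus L, s ∉ T → t ∉ T →
    m • s = m • t → f (rep s) = f (rep t) → s = t

namespace GenusOneCurve

variable {L : PeriodPair} (C : GenusOneCurve L)

/-- The number of poles of `f` on `E`, counted with multiplicity: the degree of `f : E → ℙ¹`,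
which is the intersection number of `C` with a fibre `E × {pt}` of `E × ℙ¹ → ℙ¹`. -/
noncomputable def polarDegree : ℕ :=
  ∑ᶠ t : Torus L, (-(meromorphicOrderAt C.f (rep t)).untop₀).toNat

/-- The multiplicity of `C` at a point `p ∈ E × ℙ¹`: the number of points `t ∈ E` with `φ(t) = p`
(every branch of `C` is smooth, since `t ↦ m t` is étale). -/
noncomputable def mult (p : Torus L × OnePoint ℂ) : ℕ :=
  Nat.card {t : Torus L // C.m • t = p.1 ∧ TakesValue C.f (rep t) p.2}

/-- The canonical degree `K_X · C'` of the strict transform `C'` of `C` on the blow-up `X` of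
`E × ℙ¹` at the points of the finite set `S`: since `K_{E × ℙ¹} = -2 [E × {pt}]` and
`K_X = π^* K_{E × ℙ¹} + ∑_{p ∈ S} E_p` it is `-2 deg f + ∑_{p ∈ S} mult_p C`. -/
noncomputable def canonicalDegree (S : Finset (Torus L × OnePoint ℂ)) : ℤ :=
  ∑ p ∈ S, (C.mult p : ℤ) - 2 * (C.polarDegree : ℤ)

end GenusOneCurve

open Classical in
/-- The three points `(0, 0)`, `(0, 1)`, `(0, ∞)` of `E × ℙ¹`. -/
noncomputable def threePoints (L : PeriodPair) : Finset (Torus L × OnePoint ℂ) :=
  {(0, ((0 : ℂ) : OnePoint ℂ)), (0, ((1 : ℂ) : OnePoint ℂ)), (0, ∞)}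

theorem card_ge {L : PeriodPair} {m : ℕ} (hm : m ≠ 0) (S : Finset (Torus L)) (P : Torus L → Prop)
    (h : ∀ t ∈ S, m • t = 0 ∧ P t) : S.card ≤ Nat.card {t : Torus L // m • t = 0 ∧ P t} := by
  have hfin : {t : Torus L | m • t = 0 ∧ P t}.Finite :=
    (tors_finite L m hm).subset (fun t ht => ht.1)
  have h1 : (S : Set (Torus L)) ⊆ {t : Torus L | m • t = 0 ∧ P t} := fun t ht => h t ht
  have h2 := Set.ncard_le_ncard h1 hfin
  rwa [Set.ncard_coe_finset] at h2

/-- **Main theorem.**  For every complex elliptic curve `E = ℂ / Λ`, the canonical degree of the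
curves of geometric genus one is unbounded above on the blow-up of `E × ℙ¹` at the three points
`(0, 0)`, `(0, 1)`, `(0, ∞)`. -/
theorem result (L : PeriodPair) (B : ℝ) :
    ∃ C : GenusOneCurve L, B < (C.canonicalDegree (threePoints L) : ℝ) := by
  classical
  obtain ⟨k, hk⟩ := exists_nat_gt (max B 1)
  have hk1 : B < k := lt_of_le_of_lt (le_max_left _ _) hk
  have hk2 : 1 < k := by
    have : (1 : ℝ) < k := lt_of_le_of_lt (le_max_right _ _) hk
    exact_mod_cast this
  set N : ℕ := 15 * k + 1 with hN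
  set a : ℂ := ((1 : ℤ) : ℂ) * L.ω₁ / ((3 : ℤ) : ℂ) with ha
  set b : ℂ := ((1 : ℤ) : ℂ) * L.ω₁ / ((5 : ℤ) : ℂ) with hb
  have fr : ∀ (p q : ℤ) (z : ℂ), q ≠ 0 → ¬ q ∣ p → z = (p : ℂ) * L.ω₁ / q → cl L z ≠ 0 := by
    intro p q z hq h hz
    rw [hz]
    exact cl_frac_ne L p q hq h
  have ha4 : 4 • cl L a ≠ 0 := by
    rw [← cl_nmul]
    exact fr 4 3 _ (by norm_num) (by norm_num) (by rw [ha]; push_cast; ring)
  have hb2 : 2 • cl L b ≠ 0 := by
    rw [← cl_nmul]
    exact fr 2 5 _ (by norm_num) (by norm_num) (by rw [hb]; push_cast; ring)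
  have hAB : cl L a ≠ cl L b := by
    rw [← sub_ne_zero, ← cl_sub]
    exact fr 2 15 _ (by norm_num) (by norm_num) (by rw [ha, hb]; push_cast; ring)
  have hAB' : cl L a ≠ - cl L b := by
    intro h
    have h2 : cl L (a + b) = 0 := by rw [cl_add, h, neg_add_cancel]
    exact fr 8 15 _ (by norm_num) (by norm_num) (by rw [ha, hb]; push_cast; ring) h2
  have hA15 : (N - 1) • cl L a = 0 := by
    rw [hN, Nat.add_sub_cancel, ← cl_nmul, cl_eq_zero, PeriodPair.mem_lattice]
    refine ⟨5 * k, 0, ?_⟩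
    rw [ha]; push_cast; ring
  have hB15 : (N - 1) • cl L b = 0 := by
    rw [hN, Nat.add_sub_cancel, ← cl_nmul, cl_eq_zero, PeriodPair.mem_lattice]
    refine ⟨3 * k, 0, ?_⟩
    rw [hb]; push_cast; ring
  have hstep : ∀ t : Torus L, N • t = (N - 1) • t + t := by
    intro t
    rw [hN, Nat.add_sub_cancel, add_smul, one_smul]
  have hA : N • cl L a = cl L a := by rw [hstep, hA15, zero_add]
  have hB : N • cl L b = cl L b := by rw [hstep, hB15, zero_add]
  have hN0 : N ≠ 0 := by omega
  have hN1 : N - 1 ≠ 0 := by omega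
  have hM : N * (N - 1) ≠ 0 := mul_ne_zero hN0 hN1
  have hA2 : cl L a ≠ - cl L a := ne_neg (two_smul_ne ha4)
  have hB2 : cl L b ≠ - cl L b := ne_neg hb2
  -- the nonzero `N`-torsion points
  set K : Finset (Torus L) := (tors_finite L N hN0).toFinset.erase 0 with hKdef
  have hK : ∀ κ, κ ∈ K ↔ N • κ = 0 ∧ κ ≠ 0 := by
    intro κ
    rw [hKdef, Finset.mem_erase, Set.Finite.mem_toFinset, Set.mem_ofPred_eq]
    tauto
  obtain ⟨κ, hκ⟩ : ∃ κ, κ ∈ K := by
    refine ⟨cl L (((1 : ℤ) : ℂ) * L.ω₁ / ((N : ℤ) : ℂ)), (hK _).2 ⟨?_, ?_⟩⟩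
    · rw [← cl_nmul, cl_eq_zero, PeriodPair.mem_lattice]
      refine ⟨1, 0, ?_⟩
      have : (N : ℂ) ≠ 0 := by exact_mod_cast hN0
      push_cast
      field_simp
      ring
    · apply cl_frac_ne L 1 N (by exact_mod_cast hN0)
      intro h
      have := Int.le_of_dvd (by norm_num) h
      omega
  obtain ⟨hκ1, hκ0⟩ := (hK κ).1 hκ
  -- the curve
  set G : ℂ → ℂ := F L a b N with hG
  have hord : ∀ t : Torus L, meromorphicOrderAt G (rep t)
      = ((phi (cl L a) (cl L b) N t : ℤ) : WithTop ℤ) := by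
    intro t
    have := F_ord L a b (two_smul_ne ha4) hb2 N hN0 hA hB (rep t)
    rwa [cl_rep] at this
  set C : GenusOneCurve L :=
    { m := N * (N - 1)
      m_pos := Nat.pos_of_ne_zero hM
      f := G
      meromorphic := F_mero L a b N hN0
      periodic := fun z l hl => F_per L a b N (by rw [cl_add, cl_eq_zero.2 hl, add_zero])
      birational := birat a b ha4 hb2 N (N * (N - 1)) hN0 hM hA hB hAB hAB' hκ1 hκ0 } with hC
  refine ⟨C, ?_⟩
  -- multiplicities
  have kill : ∀ (D : Torus L), (N - 1) • D = 0 → ∀ t : Torus L, (N • t = D ∨ N • t = -D) →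
      (N * (N - 1)) • t = 0 := by
    intro D hD t ht
    rw [mul_comm, mul_smul]
    rcases ht with h | h
    · rw [h, hD]
    · rw [h, smul_neg, hD, neg_zero]
  have m0 : 2 * K.card ≤ C.mult (0, ((0 : ℂ) : OnePoint ℂ)) := by
    rw [← pm_card (fun κ h => ((hK κ).1 h).1) hA hA2]
    apply card_ge hM
    intro t ht
    have h1 := (phi_pm hK hA hA2 hB hB2 hAB hAB' t).1 ht
    refine ⟨kill _ hA15 t ((mem_pm_iff hK hA hA2).1 ht).1, ?_⟩
    change 0 < meromorphicOrderAt (fun w => G w - 0) (rep t)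
    simp only [sub_zero]
    have h2 := hord t
    rw [h1] at h2
    rw [h2]
    exact WithTop.coe_lt_coe.2 (by norm_num)
  have mi : 2 * K.card ≤ C.mult (0, ∞) := by
    rw [← pm_card (fun κ h => ((hK κ).1 h).1) hB hB2]
    apply card_ge hM
    intro t ht
    have h1 := (phi_pm hK hA hA2 hB hB2 hAB hAB' t).2.1 ht
    refine ⟨kill _ hB15 t ((mem_pm_iff hK hB hB2).1 ht).1, ?_⟩
    change meromorphicOrderAt G (rep t) < 0
    have h2 := hord t
    rw [h1] at h2
    rw [h2]
    exact WithTop.coe_lt_coe.2 (by norm_num)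
  have m1 : N - 6 ≤ C.mult (0, ((1 : ℂ) : OnePoint ℂ)) := by
    obtain ⟨U, hU1, hU2⟩ := tors_ge L (N - 1) hN1
    have hcard : N - 6 ≤ (U \ {0, cl L a, - cl L a, cl L b, - cl L b}).card := by
      have h1 := Finset.le_card_sdiff {0, cl L a, - cl L a, cl L b, - cl L b} U
      have h2 : ({0, cl L a, - cl L a, cl L b, - cl L b} : Finset (Torus L)).card ≤ 5 :=
        Finset.card_le_five
      omega
    refine le_trans hcard ?_
    apply card_ge hM
    intro t ht
    rw [Finset.mem_sdiff] at ht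
    obtain ⟨h1, h2⟩ := ht
    simp only [Finset.mem_insert, Finset.mem_singleton, not_or] at h2
    obtain ⟨h20, h21, h22, h23, h24⟩ := h2
    have h3 := hU2 t h1
    refine ⟨by rw [mul_smul, h3, smul_zero], ?_⟩
    change 0 < meromorphicOrderAt (fun w => G w - 1) (rep t)
    apply F_one L a b (two_smul_ne ha4) hb2 N
    · rwa [cl_rep]
    · rw [cl_rep]
      exact fun h => h.elim h21 h22
    · rw [cl_rep]
      exact fun h => h.elim h23 h24
    · rw [cl_rep, hstep, h3, zero_add]
  have mp : C.polarDegree ≤ 2 * K.card := by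
    have h1 : C.polarDegree = ∑ᶠ t : Torus L, (-(phi (cl L a) (cl L b) N t)).toNat := by
      unfold GenusOneCurve.polarDegree
      apply finsum_congr
      intro t
      have : meromorphicOrderAt C.f (rep t) = ((phi (cl L a) (cl L b) N t : ℤ) : WithTop ℤ) :=
        hord t
      rw [this]
      rfl
    rw [h1]
    exact sum_neg_phi_le hK hA hA2 hB hB2 hAB hAB'
  have hfin : ((N : ℤ) - 6) ≤ C.canonicalDegree (threePoints L) := by
    unfold GenusOneCurve.canonicalDegree threePoints
    rw [Finset.sum_insert, Finset.sum_insert, Finset.sum_singleton]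
    · have e1 : ((N : ℤ) - 6) ≤ ((N - 6 : ℕ) : ℤ) := by omega
      have e2 : ((N - 6 : ℕ) : ℤ) ≤ C.mult (0, ((1 : ℂ) : OnePoint ℂ)) := by exact_mod_cast m1
      have e3 : (2 * K.card : ℤ) ≤ C.mult (0, ((0 : ℂ) : OnePoint ℂ)) := by exact_mod_cast m0
      have e4 : (2 * K.card : ℤ) ≤ C.mult (0, ∞) := by exact_mod_cast mi
      have e5 : (C.polarDegree : ℤ) ≤ 2 * K.card := by exact_mod_cast mp
      linarith
    · simp
    · simp
  have hfin' : ((N : ℝ) - 6) ≤ (C.canonicalDegree (threePoints L) : ℝ) := by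
    exact_mod_cast hfin
  refine lt_of_lt_of_le ?_ hfin'
  have : (N : ℝ) = 15 * k + 1 := by rw [hN]; push_cast; ring
  rw [this]
  have hk3 : (1 : ℝ) < k := by exact_mod_cast hk2
  linarith

end Pool.Agent.Results.MP_308c18_ag.EllipticProduct
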